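import Mathlib

/-!
# Local structure of graphs with the parameters of the square lattice graph
-/

set_option autoImplicit false
set_option linter.style.haveILetI false

namespace Pool.Agent.Run7.h207.VS

open Finset

section
variable {V : Type} [DecidableEq V] {N : V → Finset V} {n : ℕ}

/-- the parameters: degree `2 n - 2`, `n - 2` common neighbours of neighbours, at most two of others -/
structure Lat (N : V → Finset V) (n : ℕ) : Prop where
  symm : ∀ a b, a ∈ N b → b ∈ N a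
  irr : ∀ a, a ∉ N a
  deg : ∀ a, (N a).card = 2 * n - 2
  lam : ∀ a b, a ∈ N b → (N a ∩ N b).card = n - 2
  mu : ∀ a b, a ≠ b → a ∉ N b → (N a ∩ N b).card ≤ 2

variable {x : V}

theorem Lat.loc_mu (h : Lat N n) {a b : V} (ha : a ∈ N x) (hb : b ∈ N x) (hab : a ≠ b) (hn : a ∉ N b) :
    ((N x ∩ N a) ∩ (N x ∩ N b)).card ≤ 1 := by
  have h1 : insert x ((N x ∩ N a) ∩ (N x ∩ N b)) ⊆ N a ∩ N b := by
    intro z hz
    rcases mem_insert.1 hz with rfl | hz
    · exact mem_inter.2 ⟨h.symm _ _ ha, h.symm _ _ hb⟩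
    · rw [mem_inter, mem_inter, mem_inter] at hz
      exact mem_inter.2 ⟨hz.1.2, hz.2.2⟩
  have h2 : x ∉ (N x ∩ N a) ∩ (N x ∩ N b) := by
    intro hx
    exact h.irr x (mem_inter.1 (mem_inter.1 hx).1).1
  have h3 := (card_le_card h1).trans (h.mu a b hab hn)
  rw [card_insert_of_notMem h2] at h3
  omega

/-- the vertices of `N x` outside two nonadjacent neighbourhoods -/
theorem Lat.rest (h : Lat N n) (hn : 8 ≤ n) {u v : V} (hu : u ∈ N x) (hv : v ∈ N x) (huv : u ≠ v) (hnu : u ∉ N v) :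
    (N x \ ({u, v} ∪ ((N x ∩ N u) ∪ (N x ∩ N v)))).card ≤ 1 := by
  have h1 := h.loc_mu hu hv huv hnu
  have h2 : (N x ∩ N u).card = n - 2 := by
    rw [inter_comm]
    exact h.lam _ _ hu
  have h3 : (N x ∩ N v).card = n - 2 := by
    rw [inter_comm]
    exact h.lam _ _ hv
  have h4 := card_union_add_card_inter (N x ∩ N u) (N x ∩ N v)
  have h5 : Disjoint ({u, v} : Finset V) ((N x ∩ N u) ∪ (N x ∩ N v)) := by
    rw [disjoint_left]
    intro z hz hz'
    rw [mem_union, mem_inter, mem_inter] at hz'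
    rw [mem_insert, mem_singleton] at hz
    rcases hz with rfl | rfl
    · rcases hz' with hz' | hz'
      · exact h.irr _ hz'.2
      · exact hnu hz'.2
    · rcases hz' with hz' | hz'
      · exact hnu (h.symm _ _ hz'.2)
      · exact h.irr _ hz'.2
  have h6 := card_union_of_disjoint h5
  rw [card_pair huv] at h6
  have h7 : {u, v} ∪ ((N x ∩ N u) ∪ (N x ∩ N v)) ⊆ N x := by
    intro z hz
    rw [mem_union, mem_insert, mem_singleton, mem_union, mem_inter, mem_inter] at hz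
    rcases hz with (rfl | rfl) | hz | hz
    · exact hu
    · exact hv
    · exact hz.1
    · exact hz.1
  rw [card_sdiff_of_subset h7, h.deg x]
  omega

theorem Lat.a_le (h : Lat N n) (hn : 8 ≤ n) {y u v : V} (hy : y ∈ N x) (hu : u ∈ N x) (hv : v ∈ N x) (huy : u ∈ N y)
    (hvy : v ∈ N y) (huv : u ≠ v) (hnu : u ∉ N v) : ((N x ∩ N y) ∩ (N x ∩ N u)).card ≤ 1 := by
  by_contra hcon
  have hnv : v ∉ N u := fun hh => hnu (h.symm _ _ hh)
  have hGy : (N x ∩ N y).card = n - 2 := by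
    rw [inter_comm]
    exact h.lam _ _ hy
  have hGu : (N x ∩ N u).card = n - 2 := by
    rw [inter_comm]
    exact h.lam _ _ hu
  have hyu : y ∈ N u := h.symm _ _ huy
  have hyv : y ∈ N v := h.symm _ _ hvy
  -- the common neighbour of `u` and `v` is `y`
  have huv1 : ∀ z, z ∈ N x → z ∈ N u → z ∈ N v → z = y := by
    intro z h1 h2 h3
    have h4 := h.loc_mu hu hv huv hnu
    rw [card_le_one] at h4
    exact h4 z (mem_inter.2 ⟨mem_inter.2 ⟨h1, h2⟩, mem_inter.2 ⟨h1, h3⟩⟩) y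
      (mem_inter.2 ⟨mem_inter.2 ⟨hy, hyu⟩, mem_inter.2 ⟨hy, hyv⟩⟩)
  -- the set of the vertices near `y` and `u` is small enough
  have ha : ((N x ∩ N y) ∩ (N x ∩ N u)).card ≤ n - 4 := by
    have h1 : insert u (insert v ((N x ∩ N y) ∩ (N x ∩ N u))) ⊆ N x ∩ N y := by
      intro z hz
      rw [mem_insert, mem_insert] at hz
      rcases hz with rfl | rfl | hz
      · exact mem_inter.2 ⟨hu, huy⟩
      · exact mem_inter.2 ⟨hv, hvy⟩
      · exact (mem_inter.1 hz).1
    have h2 : v ∉ (N x ∩ N y) ∩ (N x ∩ N u) := fun hh => hnv (mem_inter.1 (mem_inter.1 hh).2).2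
    have h3 : u ∉ insert v ((N x ∩ N y) ∩ (N x ∩ N u)) := by
      intro hh
      rcases mem_insert.1 hh with hh | hh
      · exact huv hh
      · exact h.irr _ (mem_inter.1 (mem_inter.1 hh).2).2
    have h4 := card_le_card h1
    rw [card_insert_of_notMem h3, card_insert_of_notMem h2, hGy] at h4
    omega
  -- a vertex `t` near `u`, not near `y`
  obtain ⟨t, ht⟩ : ∃ t, t ∈ (N x ∩ N u) \ insert y ((N x ∩ N y) ∩ (N x ∩ N u)) := by
    rw [← Finset.Nonempty, ← card_pos]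
    have h1 := le_card_sdiff (insert y ((N x ∩ N y) ∩ (N x ∩ N u))) (N x ∩ N u)
    have h2 := card_insert_le y ((N x ∩ N y) ∩ (N x ∩ N u))
    omega
  rw [mem_sdiff, mem_inter, mem_insert, not_or] at ht
  obtain ⟨⟨htx, htu⟩, hty, hty'⟩ := ht
  have hty2 : t ∉ N y := fun hh => hty' (mem_inter.2 ⟨mem_inter.2 ⟨htx, hh⟩, mem_inter.2 ⟨htx, htu⟩⟩)
  have htv : t ∉ N v := fun hh => hty (huv1 t htx htu hh)
  have htv' : t ≠ v := by
    rintro rfl
    exact hnv htu
  -- the common neighbour of `t` and `y` is `u`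
  have hty1 : ∀ z, z ∈ N x → z ∈ N t → z ∈ N y → z = u := by
    intro z h1 h2 h3
    have h4 := h.loc_mu htx hy hty hty2
    rw [card_le_one] at h4
    exact h4 z (mem_inter.2 ⟨mem_inter.2 ⟨h1, h2⟩, mem_inter.2 ⟨h1, h3⟩⟩) u
      (mem_inter.2 ⟨mem_inter.2 ⟨hu, h.symm _ _ htu⟩, mem_inter.2 ⟨hu, huy⟩⟩)
  have hGt : (N x ∩ N t).card = n - 2 := by
    rw [inter_comm]
    exact h.lam _ _ htx
  have hcov : N x ∩ N t ⊆ {u} ∪ (((N x ∩ N u) \ insert t (insert y ((N x ∩ N y) ∩ (N x ∩ N u)))) ∪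
      (((N x ∩ N t) ∩ (N x ∩ N v)) ∪ (N x \ ({u, v} ∪ ((N x ∩ N u) ∪ (N x ∩ N v)))))) := by
    intro z hz
    have hzx := (mem_inter.1 hz).1
    have hzt := (mem_inter.1 hz).2
    by_cases h1 : z = u
    · exact mem_union_left _ (mem_singleton.2 h1)
    refine mem_union_right _ ?_
    have h2 : z ∉ N y := fun hh => h1 (hty1 z hzx hzt hh)
    have h3 : z ≠ v := by
      rintro rfl
      exact htv (h.symm _ _ hzt)
    by_cases h4 : z ∈ N u
    · refine mem_union_left _ ?_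
      rw [mem_sdiff, mem_insert, mem_insert, not_or, not_or]
      refine ⟨mem_inter.2 ⟨hzx, h4⟩, ?_, ?_, ?_⟩
      · rintro rfl
        exact h.irr _ hzt
      · rintro rfl
        exact hty2 (h.symm _ _ hzt)
      · intro hh
        exact h2 (mem_inter.1 (mem_inter.1 hh).1).2
    · refine mem_union_right _ ?_
      by_cases h5 : z ∈ N v
      · exact mem_union_left _ (mem_inter.2 ⟨hz, mem_inter.2 ⟨hzx, h5⟩⟩)
      · refine mem_union_right _ ?_
        rw [mem_sdiff, mem_union, mem_insert, mem_singleton, mem_union, mem_inter, mem_inter]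
        refine ⟨hzx, ?_⟩
        rintro ((hh | hh) | hh | hh)
        · exact h1 hh
        · exact h3 hh
        · exact h4 hh.2
        · exact h5 hh.2
  have hc := card_le_card hcov
  have h1 := card_union_le {u} (((N x ∩ N u) \ insert t (insert y ((N x ∩ N y) ∩ (N x ∩ N u)))) ∪
      (((N x ∩ N t) ∩ (N x ∩ N v)) ∪ (N x \ ({u, v} ∪ ((N x ∩ N u) ∪ (N x ∩ N v))))))
  have h2 := card_union_le ((N x ∩ N u) \ insert t (insert y ((N x ∩ N y) ∩ (N x ∩ N u))))
      (((N x ∩ N t) ∩ (N x ∩ N v)) ∪ (N x \ ({u, v} ∪ ((N x ∩ N u) ∪ (N x ∩ N v)))))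
  have h3 := card_union_le ((N x ∩ N t) ∩ (N x ∩ N v)) (N x \ ({u, v} ∪ ((N x ∩ N u) ∪ (N x ∩ N v))))
  have h4 := h.rest hn hu hv huv hnu
  have h5 := h.loc_mu htx hv htv' htv
  have h6 : ((N x ∩ N u) \ insert t (insert y ((N x ∩ N y) ∩ (N x ∩ N u)))).card =
      n - 2 - (((N x ∩ N y) ∩ (N x ∩ N u)).card + 1 + 1) := by
    rw [card_sdiff_of_subset, hGu, card_insert_of_notMem, card_insert_of_notMem]
    · intro hh
      exact h.irr _ (mem_inter.1 (mem_inter.1 hh).1).2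
    · intro hh
      rcases mem_insert.1 hh with hh | hh
      · exact hty hh
      · exact hty' hh
    · intro z hz
      rw [mem_insert, mem_insert] at hz
      rcases hz with rfl | rfl | hz
      · exact mem_inter.2 ⟨htx, htu⟩
      · exact mem_inter.2 ⟨hy, hyu⟩
      · exact (mem_inter.1 hz).2
  rw [card_singleton] at h1
  omega

/-- common neighbours of neighbours are adjacent -/
theorem Lat.clique (h : Lat N n) (hn : 8 ≤ n) {y u v : V} (hy : y ∈ N x) (hu : u ∈ N x) (hv : v ∈ N x) (huy : u ∈ N y)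
    (hvy : v ∈ N y) (huv : u ≠ v) : u ∈ N v := by
  by_contra hnu
  have hnv : v ∉ N u := fun hh => hnu (h.symm _ _ hh)
  have hGy : (N x ∩ N y).card = n - 2 := by
    rw [inter_comm]
    exact h.lam _ _ hy
  have h1 := h.a_le hn hy hu hv huy hvy huv hnu
  have h2 := h.a_le hn hy hv hu hvy huy huv.symm hnv
  have h3 := h.rest hn hu hv huv hnu
  have hcov : N x ∩ N y ⊆ {u, v} ∪ (((N x ∩ N y) ∩ (N x ∩ N u)) ∪ (((N x ∩ N y) ∩ (N x ∩ N v)) ∪
      (N x \ ({u, v} ∪ ((N x ∩ N u) ∪ (N x ∩ N v)))))) := by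
    intro z hz
    have hzx := (mem_inter.1 hz).1
    by_cases h4 : z ∈ ({u, v} : Finset V)
    · exact mem_union_left _ h4
    refine mem_union_right _ ?_
    by_cases h5 : z ∈ N u
    · exact mem_union_left _ (mem_inter.2 ⟨hz, mem_inter.2 ⟨hzx, h5⟩⟩)
    refine mem_union_right _ ?_
    by_cases h6 : z ∈ N v
    · exact mem_union_left _ (mem_inter.2 ⟨hz, mem_inter.2 ⟨hzx, h6⟩⟩)
    refine mem_union_right _ ?_
    rw [mem_sdiff, mem_union, mem_union, mem_inter, mem_inter]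
    refine ⟨hzx, ?_⟩
    rintro (hh | hh | hh)
    · exact h4 hh
    · exact h5 hh.2
    · exact h6 hh.2
  have hc := card_le_card hcov
  have h4 := card_union_le {u, v} (((N x ∩ N y) ∩ (N x ∩ N u)) ∪ (((N x ∩ N y) ∩ (N x ∩ N v)) ∪
      (N x \ ({u, v} ∪ ((N x ∩ N u) ∪ (N x ∩ N v))))))
  have h5 := card_union_le ((N x ∩ N y) ∩ (N x ∩ N u)) (((N x ∩ N y) ∩ (N x ∩ N v)) ∪
      (N x \ ({u, v} ∪ ((N x ∩ N u) ∪ (N x ∩ N v)))))
  have h6 := card_union_le ((N x ∩ N y) ∩ (N x ∩ N v)) (N x \ ({u, v} ∪ ((N x ∩ N u) ∪ (N x ∩ N v))))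
  rw [card_pair huv] at h4
  omega

end

end Pool.Agent.Run7.h207.VS
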