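import Mathlib

/-!
# Claws and cliques in graphs with the parameters of a net graph
-/

set_option autoImplicit false
set_option linter.style.haveILetI false
set_option linter.unusedSectionVars false

namespace Pool.Agent.Run7.h207.VS

open Finset

section
variable {V : Type} [Fintype V] [DecidableEq V] {N : V → Finset V} {n f A M D : ℕ}

/-- `A - 1` common neighbours of neighbours, at most `M + 1` of others, and the inequalities used -/
structure Ng (N : V → Finset V) (n f A M D : ℕ) : Prop where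
  symm : ∀ a b, a ∈ N b → b ∈ N a
  irr : ∀ a, a ∉ N a
  deg : ∀ a, (N a).card = D
  lam : ∀ a b, a ∈ N b → (N a ∩ N b).card + 1 = A
  mu : ∀ a b, a ≠ b → a ∉ N b → (N a ∩ N b).card ≤ M + 1
  clq : ∀ K : Finset V, (∀ a ∈ K, ∀ b ∈ K, a ≠ b → a ∈ N b) → K.card ≤ n
  hD : D = (f + 1) * (n - 1)
  h1 : D < (f + 2) * (A - (f + 1) * M)
  h2 : f * A < D
  h3 : A + M + 2 + 2 * (f * A) < 2 * (D + 1)
  h4 : D < (f + 2) * (D - f * A)

/-- cliques -/
def Clq (N : V → Finset V) (K : Finset V) : Prop := ∀ a ∈ K, ∀ b ∈ K, a ≠ b → a ∈ N b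

/-- the closed neighbourhood inside `N x` -/
def Cn (N : V → Finset V) (x s : V) : Finset V := insert s (N x ∩ N s)

variable {x : V}

theorem Ng.card_Cn (h : Ng N n f A M D) {s : V} (hs : s ∈ N x) : (Cn N x s).card = A := by
  rw [Cn, card_insert_of_notMem (fun hh => h.irr _ (mem_inter.1 hh).2), inter_comm, h.lam s x hs]

theorem Ng.Cn_sub (h : Ng N n f A M D) {s : V} (hs : s ∈ N x) : Cn N x s ⊆ N x := by
  have := h.irr
  intro z hz
  rcases mem_insert.1 hz with rfl | hz
  · exact hs
  · exact (mem_inter.1 hz).1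

theorem Ng.card_Cn_inter (h : Ng N n f A M D) {s t : V} (hs : s ∈ N x) (ht : t ∈ N x) (hst : s ≠ t) (hn : s ∉ N t) :
    (Cn N x s ∩ Cn N x t).card ≤ M := by
  have h1 : insert x (Cn N x s ∩ Cn N x t) ⊆ N s ∩ N t := by
    intro z hz
    rcases mem_insert.1 hz with rfl | hz
    · exact mem_inter.2 ⟨h.symm _ _ hs, h.symm _ _ ht⟩
    · rw [mem_inter, Cn, Cn, mem_insert, mem_insert, mem_inter, mem_inter] at hz
      rcases hz with ⟨rfl | h3, rfl | h4⟩
      · exact absurd rfl hst
      · exact absurd h4.2 hn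
      · exact absurd (h.symm _ _ h3.2) hn
      · exact mem_inter.2 ⟨h3.2, h4.2⟩
  have h2 : x ∉ Cn N x s ∩ Cn N x t := fun hh => h.irr x (h.Cn_sub hs (mem_inter.1 hh).1)
  have h3 := (card_le_card h1).trans (h.mu s t hst hn)
  rw [card_insert_of_notMem h2] at h3
  omega

/-- no large claws -/
theorem Ng.claw (h : Ng N n f A M D) {S : Finset V} (hS : S ⊆ N x) (hi : ∀ a ∈ S, ∀ b ∈ S, a ≠ b → a ∉ N b) :
    S.card ≤ f + 1 := by
  by_contra hcon
  obtain ⟨T, hT, hTc⟩ := exists_subset_card_eq (show f + 2 ≤ S.card by omega)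
  have hsub : T.biUnion (fun s => Cn N x s \ (T.erase s).biUnion fun t => Cn N x s ∩ Cn N x t) ⊆ N x := by
    intro z hz
    obtain ⟨s, hs, hz⟩ := mem_biUnion.1 hz
    exact h.Cn_sub (hS (hT hs)) (mem_sdiff.1 hz).1
  have hdis : ∀ s ∈ T, ∀ t ∈ T, s ≠ t → Disjoint (Cn N x s \ (T.erase s).biUnion fun t => Cn N x s ∩ Cn N x t)
      (Cn N x t \ (T.erase t).biUnion fun u => Cn N x t ∩ Cn N x u) := by
    intro s hs t ht hst
    rw [disjoint_left]
    intro z hz hz'
    rw [mem_sdiff] at hz hz'
    exact hz.2 (mem_biUnion.2 ⟨t, mem_erase.2 ⟨hst.symm, ht⟩, mem_inter.2 ⟨hz.1, hz'.1⟩⟩)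
  have hcard := card_le_card hsub
  rw [card_biUnion hdis, h.deg] at hcard
  have hlow : ∀ s ∈ T, A - (f + 1) * M ≤ (Cn N x s \ (T.erase s).biUnion fun t => Cn N x s ∩ Cn N x t).card := by
    intro s hs
    have h5 := le_card_sdiff ((T.erase s).biUnion fun t => Cn N x s ∩ Cn N x t) (Cn N x s)
    have h6 : ((T.erase s).biUnion fun t => Cn N x s ∩ Cn N x t).card ≤ (f + 1) * M := by
      have h7 : (T.erase s).card = f + 1 := by
        rw [card_erase_of_mem hs, hTc]
        rfl
      rw [← h7]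
      apply card_biUnion_le_card_mul
      intro t ht
      have ht' := mem_erase.1 ht
      exact h.card_Cn_inter (hS (hT hs)) (hS (hT ht'.2)) ht'.1.symm (hi s (hT hs) t (hT ht'.2) ht'.1.symm)
    rw [h.card_Cn (hS (hT hs))] at h5
    omega
  have h8 := card_nsmul_le_sum T _ _ hlow
  rw [hTc, smul_eq_mul] at h8
  have := h.h1
  omega

/-- every edge is in a large clique -/
theorem Ng.exists_big (h : Ng N n f A M D) {y : V} (hy : y ∈ N x) :
    ∃ K : Finset V, Clq N K ∧ x ∈ K ∧ y ∈ K ∧ D + 1 ≤ K.card + f * A := by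
  classical
  obtain ⟨S, hS, hmax⟩ := exists_max_image ((N x).powerset.filter fun S => y ∈ S ∧ ∀ a ∈ S, ∀ b ∈ S, a ≠ b → a ∉ N b)
    card ⟨{y}, by
      rw [mem_filter, mem_powerset, singleton_subset_iff]
      refine ⟨hy, mem_singleton_self y, ?_⟩
      intro a ha b hb hab
      exact absurd ((mem_singleton.1 ha).trans (mem_singleton.1 hb).symm) hab⟩
  rw [mem_filter, mem_powerset] at hS
  obtain ⟨hSx, hyS, hi⟩ := hS
  have hle := h.claw hSx hi
  have hS1 : S.card = f + 1 := by
    by_contra hne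
    have h5 : (S.biUnion fun s => Cn N x s).card ≤ S.card * A :=
      card_biUnion_le_card_mul _ _ _ fun s hs => (h.card_Cn (hSx hs)).le
    have h6 : S.card * A ≤ f * A := Nat.mul_le_mul_right _ (by omega)
    have h7 := h.h2
    obtain ⟨z, hz⟩ : ∃ z, z ∈ N x \ S.biUnion fun s => Cn N x s := by
      rw [← Finset.Nonempty, ← card_pos]
      have := le_card_sdiff (S.biUnion fun s => Cn N x s) (N x)
      rw [h.deg] at this
      omega
    rw [mem_sdiff, mem_biUnion] at hz
    have hzs : ∀ s ∈ S, z ≠ s ∧ z ∉ N s := by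
      intro s hs
      constructor
      · rintro rfl
        exact hz.2 ⟨z, hs, mem_insert_self _ _⟩
      · intro hh
        exact hz.2 ⟨s, hs, mem_insert_of_mem (mem_inter.2 ⟨hz.1, hh⟩)⟩
    have hzS : z ∉ S := fun hh => (hzs z hh).1 rfl
    have := hmax (insert z S) (by
      rw [mem_filter, mem_powerset]
      refine ⟨insert_subset hz.1 hSx, mem_insert_of_mem hyS, ?_⟩
      intro a ha b hb hab
      rcases mem_insert.1 ha with ha1 | ha1 <;> rcases mem_insert.1 hb with hb1 | hb1
      · exact absurd (ha1.trans hb1.symm) hab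
      · rw [ha1]
        exact (hzs b hb1).2
      · rw [hb1]
        exact fun hh => (hzs a ha1).2 (h.symm _ _ hh)
      · exact hi a ha1 b hb1 hab)
    rw [card_insert_of_notMem hzS] at this
    omega
  have hxK : x ∉ N x \ (S.erase y).biUnion fun s => Cn N x s := fun hh => h.irr x (mem_sdiff.1 hh).1
  refine ⟨insert x (N x \ (S.erase y).biUnion fun s => Cn N x s), ?_, mem_insert_self _ _, ?_, ?_⟩
  · intro a ha b hb hab
    rcases mem_insert.1 ha with rfl | ha <;> rcases mem_insert.1 hb with rfl | hb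
    · exact absurd rfl hab
    · exact h.symm _ _ (mem_sdiff.1 hb).1
    · exact (mem_sdiff.1 ha).1
    · by_contra hnab
      have key : ∀ z, z ∈ N x \ (S.erase y).biUnion (fun s => Cn N x s) → ∀ s ∈ S.erase y, z ≠ s ∧ z ∉ N s := by
        intro z hz s hs
        rw [mem_sdiff, mem_biUnion] at hz
        constructor
        · rintro rfl
          exact hz.2 ⟨z, hs, mem_insert_self _ _⟩
        · intro hh
          exact hz.2 ⟨s, hs, mem_insert_of_mem (mem_inter.2 ⟨hz.1, hh⟩)⟩
      have h5 : b ∉ S.erase y := fun hh => (key b hb b hh).1 rfl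
      have h6 : a ∉ insert b (S.erase y) := by
        intro hh
        rcases mem_insert.1 hh with hh | hh
        · exact hab hh
        · exact (key a ha a hh).1 rfl
      have h7 := h.claw (x := x) (S := insert a (insert b (S.erase y)))
        (insert_subset (mem_sdiff.1 ha).1 (insert_subset (mem_sdiff.1 hb).1 ((erase_subset _ _).trans hSx))) (by
          intro p hp q hq hpq
          rw [mem_insert, mem_insert] at hp hq
          rcases hp with rfl | rfl | hp <;> rcases hq with rfl | rfl | hq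
          · exact absurd rfl hpq
          · exact hnab
          · exact (key _ ha q hq).2
          · exact fun hh => hnab (h.symm _ _ hh)
          · exact absurd rfl hpq
          · exact (key _ hb q hq).2
          · exact fun hh => (key _ ha p hp).2 (h.symm _ _ hh)
          · exact fun hh => (key _ hb p hp).2 (h.symm _ _ hh)
          · exact hi p (mem_erase.1 hp).2 q (mem_erase.1 hq).2 hpq)
      rw [card_insert_of_notMem h6, card_insert_of_notMem h5, card_erase_of_mem hyS, hS1] at h7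
      omega
  · refine mem_insert_of_mem (mem_sdiff.2 ⟨hy, ?_⟩)
    intro hh
    obtain ⟨s, hs, hys⟩ := mem_biUnion.1 hh
    have hs' := mem_erase.1 hs
    rcases mem_insert.1 hys with rfl | hys
    · exact hs'.1 rfl
    · exact hi y hyS s hs'.2 hs'.1.symm (mem_inter.1 hys).2
  · rw [card_insert_of_notMem hxK]
    have h5 := le_card_sdiff ((S.erase y).biUnion fun s => Cn N x s) (N x)
    have h6 : ((S.erase y).biUnion fun s => Cn N x s).card ≤ f * A := by
      have h7 : (S.erase y).card = f := by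
        rw [card_erase_of_mem hyS, hS1]
        rfl
      rw [← h7]
      exact card_biUnion_le_card_mul _ _ _ fun s hs => (h.card_Cn (hSx (mem_erase.1 hs).2)).le
    rw [h.deg] at h5
    omega

/-- two large cliques with a common edge span a clique -/
theorem Ng.union (h : Ng N n f A M D) {K L : Finset V} (hK : Clq N K) (hL : Clq N L) (hKb : D + 1 ≤ K.card + f * A)
    (hLb : D + 1 ≤ L.card + f * A) {x y : V} (hxy : x ≠ y) (hxK : x ∈ K) (hyK : y ∈ K) (hxL : x ∈ L) (hyL : y ∈ L) :
    Clq N (K ∪ L) := by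
  have main : ∀ a ∈ K, ∀ b ∈ L, a ≠ b → a ∈ N b := by
    intro a ha b hb hab
    by_contra hnab
    have haL : a ∉ L := fun hh => hnab (hL a hh b hb hab)
    have hbK : b ∉ K := fun hh => hnab (hK a ha b hh hab)
    have h5 : K ∩ L ⊆ N a ∩ N b := by
      intro z hz
      rw [mem_inter] at hz ⊢
      constructor
      · refine hK z hz.1 a ha ?_
        rintro rfl
        exact haL hz.2
      · refine hL z hz.2 b hb ?_
        rintro rfl
        exact hbK hz.1
    have h6 := (card_le_card h5).trans (h.mu a b hab hnab)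
    have h7 : K ∪ L ⊆ insert x (insert y (N x ∩ N y)) := by
      intro z hz
      rw [mem_insert, mem_insert, mem_inter]
      by_cases h8 : z = x
      · exact Or.inl h8
      by_cases h9 : z = y
      · exact Or.inr (Or.inl h9)
      refine Or.inr (Or.inr ?_)
      rcases mem_union.1 hz with hz | hz
      · exact ⟨hK z hz x hxK h8, hK z hz y hyK h9⟩
      · exact ⟨hL z hz x hxL h8, hL z hz y hyL h9⟩
    have h8 := card_le_card h7
    have h9 := card_insert_le x (insert y (N x ∩ N y))
    have h10 := card_insert_le y (N x ∩ N y)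
    have h11 := h.lam x y (hK x hxK y hyK hxy)
    have h12 := card_union_add_card_inter K L
    have h13 := h.h3
    omega
  intro a ha b hb hab
  rcases mem_union.1 ha with ha | ha <;> rcases mem_union.1 hb with hb | hb
  · exact hK a ha b hb hab
  · exact main a ha b hb hab
  · exact h.symm _ _ (main b hb a ha hab.symm)
  · exact hL a ha b hb hab

/-- maximal large cliques -/
def Blk (N : V → Finset V) (f A D : ℕ) (K : Finset V) : Prop :=
  Clq N K ∧ D + 1 ≤ K.card + f * A ∧ ∀ L, Clq N L → K ⊆ L → L ⊆ K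

theorem Ng.exists_blk (h : Ng N n f A M D) {y : V} (hy : y ∈ N x) : ∃ K, Blk N f A D K ∧ x ∈ K ∧ y ∈ K := by
  classical
  obtain ⟨K, h1, h2, h3, h4⟩ := h.exists_big hy
  obtain ⟨L, hL, hmax⟩ := exists_max_image ((univ : Finset (Finset V)).filter fun L => Clq N L ∧ K ⊆ L) card
    ⟨K, mem_filter.2 ⟨mem_univ _, h1, Subset.refl _⟩⟩
  rw [mem_filter] at hL
  obtain ⟨-, hL1, hL2⟩ := hL
  refine ⟨L, ⟨hL1, ?_, ?_⟩, hL2 h2, hL2 h3⟩
  · have := card_le_card hL2
    omega
  · intro L' h5 h6
    have h7 := hmax L' (mem_filter.2 ⟨mem_univ _, h5, hL2.trans h6⟩)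
    rw [eq_of_subset_of_card_le h6 h7]

theorem Ng.blk_unique (h : Ng N n f A M D) {K L : Finset V} (hK : Blk N f A D K) (hL : Blk N f A D L) {x y : V}
    (hxy : x ≠ y) (hxK : x ∈ K) (hyK : y ∈ K) (hxL : x ∈ L) (hyL : y ∈ L) : K = L := by
  have hu := h.union hK.1 hL.1 hK.2.1 hL.2.1 hxy hxK hyK hxL hyL
  exact Subset.antisymm (subset_union_left.trans (hL.2.2 _ hu subset_union_right))
    (subset_union_right.trans (hK.2.2 _ hu subset_union_left))

/-- maximal large cliques have size `n` -/
theorem Ng.blk_card (h : Ng N n f A M D) {K : Finset V} (hK : Blk N f A D K) : K.card = n := by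
  classical
  have hne : K.Nonempty := by
    rw [← card_pos]
    have h1 := hK.2.1
    have h2 := h.h2
    omega
  obtain ⟨x, hx⟩ := hne
  set P := (univ : Finset (Finset V)).filter fun L => Blk N f A D L ∧ x ∈ L with hP
  have hmemP : ∀ L, L ∈ P ↔ Blk N f A D L ∧ x ∈ L := fun L => by rw [hP, mem_filter]; exact ⟨fun h => h.2, fun h => ⟨mem_univ _, h⟩⟩
  have hNx : N x = P.biUnion fun L => L.erase x := by
    ext z
    rw [mem_biUnion]
    constructor
    · intro hz
      obtain ⟨L, h1, h2, h3⟩ := h.exists_blk hz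
      refine ⟨L, (hmemP L).2 ⟨h1, h2⟩, mem_erase.2 ⟨?_, h3⟩⟩
      rintro rfl
      exact h.irr _ hz
    · rintro ⟨L, hL, hz⟩
      have hL' := (hmemP L).1 hL
      have hz' := mem_erase.1 hz
      exact hL'.1.1 z hz'.2 x hL'.2 hz'.1
  have hdeg := h.deg x
  rw [hNx, card_biUnion] at hdeg
  swap
  · intro L hL L' hL' hne
    have hL1 := (hmemP L).1 hL
    have hL2 := (hmemP L').1 hL'
    rw [Function.onFun, disjoint_left]
    intro z hz hz'
    have h1 := mem_erase.1 hz
    have h2 := mem_erase.1 hz'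
    exact hne (h.blk_unique hL1.1 hL2.1 h1.1.symm hL1.2 h1.2 hL2.2 h2.2)
  have hce : ∀ L ∈ P, (L.erase x).card = L.card - 1 := fun L hL => card_erase_of_mem ((hmemP L).1 hL).2
  have hlow : ∀ L ∈ P, D - f * A ≤ (L.erase x).card := by
    intro L hL
    rw [hce L hL]
    have := ((hmemP L).1 hL).1.2.1
    omega
  have hPc : P.card ≤ f + 1 := by
    have h1 := card_nsmul_le_sum P _ _ hlow
    rw [hdeg, smul_eq_mul] at h1
    have h2 := h.h4
    by_contra hcon
    have h3 : (f + 2) * (D - f * A) ≤ P.card * (D - f * A) := Nat.mul_le_mul_right _ (by omega)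
    omega
  have hup : ∀ L ∈ P, (L.erase x).card ≤ n - 1 := by
    intro L hL
    rw [hce L hL]
    have := h.clq L ((hmemP L).1 hL).1.1
    omega
  have hKn := h.clq K hK.1
  have hKpos : 0 < K.card := card_pos.2 ⟨x, hx⟩
  by_contra hne
  have hKP : K ∈ P := (hmemP K).2 ⟨hK, hx⟩
  have h5 : ∑ L ∈ P, (L.erase x).card < ∑ _L ∈ P, (n - 1) := by
    apply sum_lt_sum hup
    refine ⟨K, hKP, ?_⟩
    rw [hce K hKP]
    omega
  rw [sum_const, smul_eq_mul, hdeg, h.hD] at h5
  have h6 : P.card * (n - 1) ≤ (f + 1) * (n - 1) := Nat.mul_le_mul_right _ hPc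
  omega

end

end Pool.Agent.Run7.h207.VS
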