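import Pool.Agent.Run7.h207.VS.Net

/-!
# Variational sets and affine planes
-/

set_option autoImplicit false

namespace Pool.Agent.Run7.h207.VS

open Function Finset Pool.Agent.H430R2.PermCubes Pool.Agent.R116.AF

theorem reduce {m m' n k : ℕ} (hm : m' ≤ m) (hn : 1 ≤ n) {C : Fin (m + k) → (Fin m → Fin n) → Fin n}
    (h : IsVariationalSet m n (m + k) C) : ∃ C' : Fin k → (Fin m' → Fin n) → Fin n, IsVariationalSet m' n k C' := by
  obtain ⟨j, rfl⟩ : ∃ j, m = m' + j := ⟨m - m', by omega⟩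
  have h1 := oa_of_var h
  have h2 := h1.mono (Fin.castLE (show m' + k + j ≤ m' + j + k by omega)) (Fin.castLE_injective _)
  obtain ⟨R, c, h3⟩ := OA.fixMany (by omega) m' (m' + k) j _ _ h2
  exact h3.cubes

theorem exists_OA_two {m n k l : ℕ} (hm : 2 ≤ m) (hn : 1 ≤ n) {C : Fin k → (Fin m → Fin n) → Fin n}
    (h : IsVariationalSet m n k C) (hl : l + m ≤ k + 2) : ∃ (R : Type) (c : Fin l → R → Fin n), OA 2 l n R c := by
  obtain ⟨j, rfl⟩ : ∃ j, m = 2 + j := ⟨m - 2, by omega⟩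
  have h1 := oa_of_var h
  have h2 := h1.mono (Fin.castLE (show l + j ≤ k by omega)) (Fin.castLE_injective _)
  exact OA.fixMany (by omega) 2 l j _ _ h2

theorem plane {m n k d : ℕ} (hm : 2 ≤ m) (hd : 1 ≤ d) (hdn : d = 2 ∧ 8 ≤ n ∨ d ^ 4 < n) (hk : n + m ≤ k + d + 1)
    {C : Fin k → (Fin m → Fin n) → Fin n} (h : IsVariationalSet m n k C) :
    ∃ (R : Type) (_ : Fintype R) (_ : DecidableEq R) (B : Finset (Finset R)), Aff n B := by
  have hd4 : d ≤ d ^ 4 := Nat.le_self_pow (by norm_num) d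
  obtain ⟨R, c, h1⟩ := exists_OA_two (l := n + 1 - d) hm (by omega) h (by omega)
  obtain ⟨h2, h3, B, h4⟩ := h1.exists_aff hd hdn (by omega)
  exact ⟨R, h2, h3, B, h4⟩

theorem bruck_ryser {m n k d p : ℕ} (hm : 2 ≤ m) (hd : 1 ≤ d) (hdn : d = 2 ∧ 8 ≤ n ∨ d ^ 4 < n)
    (h4 : n % 4 = 1 ∨ n % 4 = 2) (hp : p.Prime) (hp4 : p % 4 = 3) (h1 : p ∣ n) (h2 : ¬ p ^ 2 ∣ n)
    {C : Fin k → (Fin m → Fin n) → Fin n} (h : IsVariationalSet m n k C) : k + d + 2 ≤ n + m := by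
  by_contra hcon
  obtain ⟨R, _, _, B, hB⟩ := plane hm hd hdn (by omega) h
  exact hB.br h4 hp h1 h2 hp4

end Pool.Agent.Run7.h207.VS
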