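import Pool.Agent.Run7.h207.VS.Mols
import Pool.Agent.Y942.LY.BR

/-!
# The full condition of Bruck and Ryser
-/

set_option autoImplicit false

namespace Pool.Agent.Run7.h207.VS

open Function Finset Pool.Agent.H430R2.PermCubes Pool.Agent.R116.AF

theorem full_bruck_ryser {m n k d : ℕ} (hm : 2 ≤ m) (hd : 1 ≤ d) (hdn : d = 2 ∧ 8 ≤ n ∨ d ^ 4 < n)
    (h4 : n % 4 = 1 ∨ n % 4 = 2) (hsq : ¬ ∃ a b : ℕ, n = a ^ 2 + b ^ 2)
    {C : Fin k → (Fin m → Fin n) → Fin n} (h : IsVariationalSet m n k C) : k + d + 2 ≤ n + m := by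
  by_contra hcon
  obtain ⟨R, _, _, B, hB⟩ := plane hm hd hdn (by omega) h
  apply hsq
  refine Pool.Agent.Y942.LY.br_full hB.sym ?_ (by omega)
  rcases h4 with h4 | h4
  · obtain ⟨q, hq⟩ : ∃ q, n = 4 * q + 1 := ⟨n / 4, by omega⟩
    have : n ^ 2 + n + 1 = 4 * (4 * q ^ 2 + 3 * q) + 3 := by
      rw [hq]
      ring
    omega
  · obtain ⟨q, hq⟩ : ∃ q, n = 4 * q + 2 := ⟨n / 4, by omega⟩
    have : n ^ 2 + n + 1 = 4 * (4 * q ^ 2 + 5 * q + 1) + 3 := by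
      rw [hq]
      ring
    omega

end Pool.Agent.Run7.h207.VS
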