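import Pool.Agent.Run7.h207.VS.Final

/-!
# An affine plane of order `n` gives `n - 1` latin squares
-/

set_option autoImplicit false
set_option linter.style.haveILetI false

namespace Pool.Agent.Run7.h207.VS

open Function Finset Pool.Agent.H430R2.PermCubes Pool.Agent.R116.AF

theorem exists_OA_of_aff {n : ℕ} {V : Type} [Fintype V] [DecidableEq V] {B : Finset (Finset V)} (h : Aff n B) :
    ∃ c : Fin (n + 1) → V → Fin n, OA 2 (n + 1) n V c := by
  classical
  have hn := h.two
  have hV : 0 < Fintype.card V := by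
    rw [h.card]
    positivity
  obtain ⟨O⟩ := Fintype.card_pos_iff.1 hV
  -- the lines through `O`
  let φ : {b // b ∈ B.filter (fun b => O ∈ b)} ≃ Fin (n + 1) :=
    Fintype.equivFinOfCardEq (by rw [Fintype.card_coe, h.deg O])
  have hb : ∀ i, (φ.symm i).1 ∈ B ∧ O ∈ (φ.symm i).1 := fun i => mem_filter.1 (φ.symm i).2
  -- the lines parallel to them
  let ψ : ∀ i : Fin (n + 1), {l // l ∈ B.filter (fun l => par (φ.symm i).1 l)} ≃ Fin n := fun i =>
    Fintype.equivFinOfCardEq (by rw [Fintype.card_coe, h.card_par (hb i).1])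
  choose l hl1 hl2 hl3 using fun (i : Fin (n + 1)) (x : V) => h.par_exists (hb i).1 x
  have hl4 : ∀ i x, l i x ∈ B.filter (fun l => par (φ.symm i).1 l) := fun i x =>
    mem_filter.2 ⟨hl1 i x, par_symm (hl3 i x)⟩
  refine ⟨fun i x => ψ i ⟨l i x, hl4 i x⟩, ?_⟩
  intro e he
  rw [Fintype.bijective_iff_injective_and_card]
  refine ⟨?_, by rw [h.card, Fintype.card_fun, Fintype.card_fin, Fintype.card_fin]⟩
  intro x y hxy
  by_contra hne
  have h0 := congrFun hxy 0
  have h1 := congrFun hxy 1
  beta_reduce at h0 h1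
  have h0' : l (e 0) x = l (e 0) y := congrArg Subtype.val ((ψ (e 0)).injective h0)
  have h1' : l (e 1) x = l (e 1) y := congrArg Subtype.val ((ψ (e 1)).injective h1)
  have h2 : l (e 0) x = l (e 1) x := by
    refine h.uniq x y hne _ (hl1 _ _) _ (hl1 _ _) (hl2 _ _) ?_ (hl2 _ _) ?_
    · rw [h0']
      exact hl2 _ _
    · rw [h1']
      exact hl2 _ _
  have h3 : (φ.symm (e 0)).1 = (φ.symm (e 1)).1 := by
    refine h.par_unique (hl1 (e 0) x) (hb _).1 (hb _).1 (par_symm (hl3 _ _)) ?_ (hb _).2 (hb _).2
    rw [h2]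
    exact par_symm (hl3 _ _)
  have h4 := he (φ.symm.injective (Subtype.ext h3))
  exact absurd h4 (by decide)

/-- at most `n - 1` mutually orthogonal latin squares -/
theorem two_le_sub {n k : ℕ} (hn : 2 ≤ n) {C : Fin k → (Fin 2 → Fin n) → Fin n} (h : IsVariationalSet 2 n k C) :
    k ≤ n - 1 := by
  classical
  let z : Fin n := ⟨0, by omega⟩
  let o : Fin n := ⟨1, by omega⟩
  have hzo : z ≠ o := by
    intro hh
    exact absurd (congrArg Fin.val hh) (by norm_num [z, o])
  -- in row one the symbol of the first cell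
  have hex : ∀ i : Fin k, ∃ t, C i (update ![o, z] 1 t) = C i ![z, z] := fun i =>
    (h.1 i 1 ![o, z]).2 _
  choose t ht using hex
  have hupd : ∀ s : Fin n, update (![o, z] : Fin 2 → Fin n) 1 s = ![o, s] := by
    intro s
    funext a
    fin_cases a
    · rfl
    · rfl
  have ht' : ∀ i, C i ![o, t i] = C i ![z, z] := by
    intro i
    rw [← hupd]
    exact ht i
  have htz : ∀ i, t i ≠ z := by
    intro i hi
    have h1 := ht' i
    rw [hi] at h1
    have h2 := (h.1 i 0 ![z, z]).1 (a₁ := o) (a₂ := z) (by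
      have e1 : update (![z, z] : Fin 2 → Fin n) 0 o = ![o, z] := by
        funext a
        fin_cases a
        · rfl
        · rfl
      have e2 : update (![z, z] : Fin 2 → Fin n) 0 z = ![z, z] := by
        funext a
        fin_cases a
        · rfl
        · rfl
      beta_reduce
      rw [e1, e2]
      exact h1)
    exact hzo h2.symm
  have hinj : Injective t := by
    intro i j hij
    by_contra hne
    have h1 := (h.2 ![i, j] (pair_injective hne)).1 (a₁ := ![o, t i]) (a₂ := ![z, z]) (by
      funext a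
      fin_cases a
      · exact ht' i
      · have := ht' j
        rw [← hij] at this
        exact this)
    exact hzo (congrFun h1 0).symm
  have h1 := card_le_card (show (univ : Finset (Fin k)).image t ⊆ univ.erase z from by
    intro a ha
    obtain ⟨i, -, rfl⟩ := mem_image.1 ha
    exact mem_erase.2 ⟨htz i, mem_univ _⟩)
  rwa [card_image_of_injective _ hinj, card_univ, Fintype.card_fin, card_erase_of_mem (mem_univ _), card_univ,
    Fintype.card_fin] at h1

/-- an affine plane of order `n` gives the value in dimension two -/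
theorem isPi_two {n : ℕ} {V : Type} [Fintype V] [DecidableEq V] {B : Finset (Finset V)} (h : Aff n B) :
    IsPi 2 n (n - 1) := by
  have hn := h.two
  constructor
  · obtain ⟨c, hc⟩ := exists_OA_of_aff h
    have h1 := hc.mono (Fin.castLE (show 2 + (n - 1) ≤ n + 1 by omega)) (Fin.castLE_injective _)
    exact h1.cubes
  · rintro k ⟨C, hC⟩
    exact two_le_sub hn hC

/-- large variational sets only for orders of projective planes -/
theorem isPi_two_of_large {m n k d : ℕ} (hm : 2 ≤ m) (hd : 1 ≤ d) (hdn : d = 2 ∧ 8 ≤ n ∨ d ^ 4 < n)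
    (hk : n + m ≤ k + d + 1) {C : Fin k → (Fin m → Fin n) → Fin n} (h : IsVariationalSet m n k C) :
    IsPi 2 n (n - 1) := by
  obtain ⟨R, _, _, B, hB⟩ := plane hm hd hdn hk h
  exact isPi_two hB

end Pool.Agent.Run7.h207.VS
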