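import Pool.Agent.Run7.h207.VS.PlaneTwo
import Pool.Agent.Run7.h207.VS.Completion

/-!
# An orthogonal array of strength two with `n + 1 - d` columns, `d ^ 4 < n`, gives an affine plane of order `n`
-/

set_option autoImplicit false
set_option linter.unusedSectionVars false
set_option linter.style.haveILetI false

namespace Pool.Agent.Run7.h207.VS

open Function Finset Pool.Agent.H430R2.PermCubes Pool.Agent.R116.AF

section
variable {k n f : ℕ} {R : Type} {c : Fin k → R → Fin n} [Fintype R] [DecidableEq R]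

theorem OA.nb_block_gen (h : OA 2 k n R c) (hk : 2 ≤ k) (hkn : k + f = n) {x : R} {i : Fin k} {v : Fin n} (hv : c i x ≠ v) :
    ((Nb c x).filter fun z => c i z = v).card = f + 1 := by
  obtain ⟨j0, hj0⟩ := exists_ne_fin hk i
  have hK := h.card_block hj0 v
  have hex : ∀ j : Fin k, ∃ s, c i s = v ∧ (i ≠ j → c j s = c j x) := by
    intro j
    by_cases hj : i = j
    · obtain ⟨s, hs1, -⟩ := h.exists_of hj0 v v
      exact ⟨s, hs1, fun hh => absurd hj hh⟩
    · obtain ⟨s, hs1, hs2⟩ := h.exists_of hj v (c j x)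
      exact ⟨s, hs1, fun _ => hs2⟩
  choose s hs1 hs2 using hex
  have himg : ((univ.erase i).image s).card = k - 1 := by
    rw [card_image_of_injOn, card_erase_of_mem (mem_univ _), card_univ, Fintype.card_fin]
    intro a ha b hb hab
    by_contra hne
    have ha' : i ≠ a := fun hh => (mem_erase.1 (mem_coe.1 ha)).1 hh.symm
    have hb' : i ≠ b := fun hh => (mem_erase.1 (mem_coe.1 hb)).1 hh.symm
    have h3 : s a = x := by
      apply h.eq_of hne (hs2 a ha')
      rw [hab]
      exact hs2 b hb'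
    exact hv (by rw [← h3, hs1 a])
  have hsub : (univ.erase i).image s ⊆ univ.filter (fun r => c i r = v) := by
    intro r hr
    obtain ⟨j, -, rfl⟩ := mem_image.1 hr
    exact mem_filter.2 ⟨mem_univ _, hs1 j⟩
  have heq : (Nb c x).filter (fun z => c i z = v) = univ.filter (fun r => c i r = v) \ (univ.erase i).image s := by
    ext z
    rw [mem_filter, mem_Nb, mem_sdiff, mem_filter, mem_image]
    constructor
    · rintro ⟨h1, h2⟩
      refine ⟨⟨mem_univ _, h2⟩, ?_⟩
      rintro ⟨j, hj, rfl⟩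
      have hj' : i ≠ j := fun hh => (mem_erase.1 hj).1 hh.symm
      exact h1 j (hs2 j hj').symm
    · rintro ⟨⟨-, h2⟩, h3⟩
      refine ⟨fun j hj => ?_, h2⟩
      by_cases hij : i = j
      · subst hij
        exact hv (hj.trans h2)
      · refine h3 ⟨j, mem_erase.2 ⟨fun hh => hij hh.symm, mem_univ _⟩, ?_⟩
        exact h.eq_of hij ((hs1 j).trans h2.symm) ((hs2 j hij).trans hj)
  rw [heq, card_sdiff_of_subset hsub, hK, himg]
  omega

theorem OA.card_nb_gen (h : OA 2 k n R c) (hk : 2 ≤ k) (hkn : k + f = n) (x : R) : (Nb c x).card = (f + 1) * (n - 1) := by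
  let i : Fin k := ⟨0, by omega⟩
  rw [card_eq_sum_card_fiberwise (f := c i) (t := univ) (fun z _ => mem_coe.2 (mem_univ _))]
  have h1 : ∀ v ∈ (univ : Finset (Fin n)).erase (c i x), ((Nb c x).filter fun z => c i z = v).card = f + 1 := by
    intro v hv
    exact h.nb_block_gen hk hkn fun hh => (mem_erase.1 hv).1 hh.symm
  rw [← add_sum_erase _ _ (mem_univ (c i x)), nb_block_self, card_empty, sum_congr rfl h1, sum_const,
    card_erase_of_mem (mem_univ _), card_univ, Fintype.card_fin, smul_eq_mul, zero_add, mul_comm]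

/-- the graph of the rows that do not agree -/
theorem OA.ng (h : OA 2 k n R c) (hk : 2 ≤ k) {e : ℕ} (hkn : k + (e + 1) = n) (hn : (e + 2) ^ 4 + 1 ≤ n) :
    Ng (Nb c) n (e + 1) (n - 1 + (e + 1) * e) (e ^ 2 + 3 * e + 1) ((e + 2) * (n - 1)) := by
  obtain ⟨t, ht⟩ : ∃ t, n = (e + 2) ^ 4 + t + 1 := ⟨n - ((e + 2) ^ 4 + 1), by omega⟩
  have hn1 : n - 1 = (e + 2) ^ 4 + t := by omega
  have hkl : k + e = (e + 2) ^ 4 + t := by omega
  have hdeg : ∀ a, (Nb c a).card = (e + 2) * (n - 1) := fun a => h.card_nb_gen hk hkn a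
  refine ⟨fun a b hab => mem_Nb.2 fun i hi => mem_Nb.1 hab i hi.symm, fun a ha => mem_Nb.1 ha ⟨0, by omega⟩ rfl, hdeg,
    ?_, ?_, ?_, rfl, ?_, ?_, ?_, ?_⟩
  · intro a b hab
    have hba : b ∈ Nb c a := mem_Nb.2 fun i hi => mem_Nb.1 hab i hi.symm
    have h1 : ∀ i ∈ (univ : Finset (Fin k)), (((Nb c a).filter fun z => c i z = c i b).erase b).card = e + 1 := by
      intro i _
      have hm : b ∈ (Nb c a).filter fun z => c i z = c i b := mem_filter.2 ⟨hba, rfl⟩
      rw [card_erase_of_mem hm, h.nb_block_gen hk hkn (mem_Nb.1 hba i)]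
      rfl
    have h2 : (Ag c a b).card = k * (e + 1) := by
      rw [h.card_Ag, sum_congr rfl h1, sum_const, card_univ, Fintype.card_fin, smul_eq_mul]
    have h3 : insert b (Ag c a b) ⊆ Nb c a := insert_subset hba (Ag_subset a b)
    have h4 := card_le_card h3
    rw [card_insert_of_notMem (not_mem_Ag a b), h2, hdeg a, hn1] at h4
    rw [nb_inter hk, card_sdiff_of_subset h3, card_insert_of_notMem (not_mem_Ag a b), h2, hdeg a, hn1]
    have h5 : (e + 2) * ((e + 2) ^ 4 + t) = k * (e + 1) + ((e + 2) ^ 4 + t + (e + 1) * e) := by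
      rw [← hkl]
      ring
    omega
  · intro a b hab hnb
    have hba : b ∉ Nb c a := fun hh => hnb (mem_Nb.2 fun i hi => mem_Nb.1 hh i hi.symm)
    obtain ⟨i0, hi0⟩ : ∃ i, c i a = c i b := by
      by_contra hcon
      exact hba (mem_Nb.2 fun i hi => hcon ⟨i, hi⟩)
    have h1 : ∀ i ∈ (univ : Finset (Fin k)).erase i0,
        (((Nb c a).filter fun z => c i z = c i b).erase b).card = e + 2 := by
      intro i hi
      have h4 : c i a ≠ c i b := fun hh => hab (h.eq_of (mem_erase.1 hi).1 hh hi0)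
      rw [erase_eq_of_notMem (fun hh => hba (mem_filter.1 hh).1), h.nb_block_gen hk hkn h4]
    have h2 : (Ag c a b).card = (k - 1) * (e + 2) := by
      rw [h.card_Ag, ← add_sum_erase _ _ (mem_univ i0), sum_congr rfl h1, sum_const,
        card_erase_of_mem (mem_univ _), card_univ, Fintype.card_fin, smul_eq_mul, ← hi0, nb_block_self,
        erase_empty, card_empty, zero_add]
    have h3 : Nb c a ∩ Nb c b ⊆ Nb c a \ Ag c a b := by
      rw [nb_inter hk]
      exact sdiff_subset_sdiff (Subset.refl _) (subset_insert _ _)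
    have h4 := card_le_card h3
    rw [card_sdiff_of_subset (Ag_subset a b), h2, hdeg a, hn1] at h4
    obtain ⟨k', rfl⟩ : ∃ k', k = k' + 1 := ⟨k - 1, by omega⟩
    have h5 : (e + 2) * ((e + 2) ^ 4 + t) = k' * (e + 2) + (e ^ 2 + 3 * e + 1 + 1) := by
      rw [← hkl]
      ring
    rw [Nat.add_sub_cancel] at h4
    omega
  · intro K hK
    have h1 : Set.InjOn (c ⟨0, by omega⟩) (K : Set R) := by
      intro a ha b hb hab
      by_contra hne
      exact mem_Nb.1 (hK a ha b hb hne) ⟨0, by omega⟩ hab.symm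
    have h2 := card_le_card (subset_univ (K.image (c ⟨0, by omega⟩)))
    rwa [card_image_of_injOn h1, card_univ, Fintype.card_fin] at h2
  · have h5 : n - 1 + (e + 1) * e - (e + 1 + 1) * (e ^ 2 + 3 * e + 1) = t + (e ^ 4 + 7 * e ^ 3 + 20 * e ^ 2 + 26 * e + 14) := by
      rw [hn1]
      apply Nat.sub_eq_of_eq_add
      ring
    rw [h5, hn1]
    nlinarith [Nat.zero_le (e ^ 3), Nat.zero_le (e ^ 2), Nat.zero_le e, Nat.zero_le t]
  · rw [hn1]
    nlinarith [Nat.zero_le (e ^ 3), Nat.zero_le (e ^ 2), Nat.zero_le e, Nat.zero_le t, Nat.zero_le (e ^ 4)]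
  · rw [hn1]
    nlinarith [Nat.zero_le (e ^ 3), Nat.zero_le (e ^ 2), Nat.zero_le e, Nat.zero_le t, Nat.zero_le (e ^ 4)]
  · have h5 : (e + 2) * (n - 1) - (e + 1) * (n - 1 + (e + 1) * e) = t + (e ^ 4 + 7 * e ^ 3 + 22 * e ^ 2 + 31 * e + 16) := by
      rw [hn1]
      apply Nat.sub_eq_of_eq_add
      ring
    rw [h5, hn1]
    nlinarith [Nat.zero_le (e ^ 3), Nat.zero_le (e ^ 2), Nat.zero_le e, Nat.zero_le t]

/-- an orthogonal array of strength two with `n - 1 - e` columns, `(e + 2) ^ 4 < n`, gives an affine plane -/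
theorem exists_aff_gen (hk : 2 ≤ k) {e : ℕ} (hkn : k + (e + 1) = n) (hn : (e + 2) ^ 4 + 1 ≤ n) (h : OA 2 k n R c) :
    ∃ B : Finset (Finset R), Aff n B := by
  classical
  have hL := h.ng hk hkn hn
  obtain ⟨j0, hj0⟩ := exists_ne_fin hk ⟨0, by omega⟩
  refine ⟨(univ : Finset (Fin k × Fin n)).image (fun p => univ.filter (fun r => c p.1 r = p.2)) ∪
    (univ : Finset (Finset R)).filter
      (fun K => Blk (Nb c) (e + 1) (n - 1 + (e + 1) * e) ((e + 2) * (n - 1)) K), by omega, h.card_R hj0, ?_, ?_, ?_⟩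
  · intro b hb
    rw [mem_union, mem_image, mem_filter] at hb
    rcases hb with ⟨p, -, rfl⟩ | ⟨-, hb⟩
    · obtain ⟨j, hj⟩ := exists_ne_fin hk p.1
      exact h.card_block hj p.2
    · exact hL.blk_card hb
  · intro x y hxy
    by_cases hp : ∃ i, c i x = c i y
    · obtain ⟨i, hi⟩ := hp
      refine ⟨univ.filter (fun r => c i r = c i x), mem_union_left _ (mem_image.2 ⟨(i, c i x), mem_univ _, rfl⟩), ?_, ?_⟩
      · rw [mem_filter]
        exact ⟨mem_univ _, rfl⟩
      · rw [mem_filter]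
        exact ⟨mem_univ _, hi.symm⟩
    · have hyx : y ∈ Nb c x := mem_Nb.2 fun i hi => hp ⟨i, hi⟩
      obtain ⟨K, h1, h2, h3⟩ := hL.exists_blk hyx
      exact ⟨K, mem_union_right _ (mem_filter.2 ⟨mem_univ _, h1⟩), h2, h3⟩
  · intro x y hxy b hb b' hb' h1 h2 h3 h4
    rw [mem_union, mem_image, mem_filter] at hb hb'
    rcases hb with ⟨p, -, hbi⟩ | ⟨-, hb⟩ <;> rcases hb' with ⟨q, -, hbj⟩ | ⟨-, hb'⟩
    · rw [← hbi, mem_filter] at h1 h2
      rw [← hbj, mem_filter] at h3 h4
      by_cases hij : p.1 = q.1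
      · rw [← hbi, ← hbj, ← h1.2, ← h3.2, hij]
      · exact absurd (h.eq_of hij (h1.2.trans h2.2.symm) (h3.2.trans h4.2.symm)) hxy
    · rw [← hbi, mem_filter] at h1 h2
      exact absurd (h2.2.trans h1.2.symm) (mem_Nb.1 (hb'.1 x h3 y h4 hxy) p.1)
    · rw [← hbj, mem_filter] at h3 h4
      exact absurd (h4.2.trans h3.2.symm) (mem_Nb.1 (hb.1 x h1 y h2 hxy) q.1)
    · exact hL.blk_unique hb hb' hxy h1 h2 h3 h4

end

/-- an orthogonal array of strength two with at least `n + 1 - d` columns gives an affine plane of order `n`,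
if `d = 2` and `n ≥ 8`, or `d ≥ 1` and `d ^ 4 < n` -/
theorem OA.exists_aff {n k d : ℕ} {R : Type} {c : Fin k → R → Fin n} (h : OA 2 k n R c) (hd : 1 ≤ d)
    (hdn : d = 2 ∧ 8 ≤ n ∨ d ^ 4 < n) (hk : n + 1 ≤ k + d) :
    ∃ (_ : Fintype R) (_ : DecidableEq R) (B : Finset (Finset R)), Aff n B := by
  classical
  have hd4 : d ≤ d ^ 4 := Nat.le_self_pow (by norm_num) d
  have hn2 : 2 ≤ n := by omega
  have hdn' : d + 1 ≤ n := by omega
  have hk2 : 2 ≤ n + 1 - d := by omega
  have h' := h.mono (Fin.castLE (show n + 1 - d ≤ k by omega)) (Fin.castLE_injective _)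
  obtain ⟨j, hj⟩ := exists_ne_fin (k := n + 1 - d) hk2 ⟨0, by omega⟩
  haveI : Finite R := Finite.of_injective _ (h' ![⟨0, by omega⟩, j] (pair_injective hj)).1
  letI : Fintype R := Fintype.ofFinite R
  refine ⟨inferInstance, inferInstance, ?_⟩
  rcases Nat.lt_or_ge d 2 with h1 | h1
  · obtain rfl : d = 1 := by omega
    exact VS.exists_aff hn2 h'
  · obtain ⟨e, rfl⟩ : ∃ e, d = e + 2 := ⟨d - 2, by omega⟩
    rcases hdn with ⟨h2, h3⟩ | h2
    · obtain rfl : e = 0 := by omega
      exact exists_aff_two h3 (by omega) h'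
    · exact exists_aff_gen (e := e) hk2 (by omega) h2 h'

end Pool.Agent.Run7.h207.VS
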