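import Pool.Agent.H430R2.PermCubes.Defs
import Pool.Agent.R116.AF.BR

/-!
# Variational sets and orthogonal arrays of index one
-/

set_option autoImplicit false

namespace Pool.Agent.Run7.h207.VS

open Function Pool.Agent.H430R2.PermCubes

/-- any `m` different columns define a bijection of the rows with `[n]^m` -/
def OA (m k n : ℕ) (R : Type) (c : Fin k → R → Fin n) : Prop :=
  ∀ e : Fin m → Fin k, Injective e → Bijective fun (r : R) (i : Fin m) => c (e i) r

theorem OA.mono {m k l n : ℕ} {R : Type} {c : Fin k → R → Fin n} (h : OA m k n R c) (f : Fin l → Fin k) (hf : Injective f) :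
    OA m l n R (fun i => c (f i)) := fun e he => h (fun i => f (e i)) (hf.comp he)

/-- fixing the value of the last column -/
theorem OA.fix {m k n : ℕ} {R : Type} {c : Fin (k + 1) → R → Fin n} (h : OA (m + 1) (k + 1) n R c) (v : Fin n) :
    OA m k n {r : R // c (Fin.last k) r = v} (fun i r => c i.castSucc r.1) := by
  intro e he
  have he' : Injective (Fin.snoc (α := fun _ => Fin (k + 1)) (fun i => (e i).castSucc) (Fin.last k) : Fin (m + 1) → Fin (k + 1)) := by
    intro a b hab
    induction a using Fin.lastCases with
    | last =>
      induction b using Fin.lastCases with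
      | last => rfl
      | cast b =>
        rw [Fin.snoc_last, Fin.snoc_castSucc] at hab
        exact absurd hab.symm (Fin.castSucc_lt_last _).ne
    | cast a =>
      induction b using Fin.lastCases with
      | last =>
        rw [Fin.snoc_last, Fin.snoc_castSucc] at hab
        exact absurd hab (Fin.castSucc_lt_last _).ne
      | cast b =>
        rw [Fin.snoc_castSucc, Fin.snoc_castSucc] at hab
        rw [he (Fin.castSucc_injective _ hab)]
  obtain ⟨h1, h2⟩ := h _ he'
  constructor
  · intro r s hrs
    apply Subtype.ext
    apply h1
    funext i
    beta_reduce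
    induction i using Fin.lastCases with
    | last => rw [Fin.snoc_last, r.2, s.2]
    | cast i =>
      rw [Fin.snoc_castSucc]
      exact congrFun hrs i
  · intro x
    obtain ⟨r, hr⟩ := h2 (Fin.snoc (α := fun _ => Fin n) x v)
    refine ⟨⟨r, ?_⟩, ?_⟩
    · have := congrFun hr (Fin.last m)
      beta_reduce at this
      rwa [Fin.snoc_last, Fin.snoc_last] at this
    · funext i
      have := congrFun hr i.castSucc
      beta_reduce at this
      rwa [Fin.snoc_castSucc, Fin.snoc_castSucc] at this

/-- fixing the values of several columns -/
theorem OA.fixMany {n : ℕ} (hn : 0 < n) (m k : ℕ) : ∀ (j : ℕ) (R : Type) (c : Fin (k + j) → R → Fin n), OA (m + j) (k + j) n R c →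
    ∃ (R' : Type) (c' : Fin k → R' → Fin n), OA m k n R' c' := by
  intro j
  induction j with
  | zero => exact fun R c h => ⟨R, c, h⟩
  | succ j ih => exact fun R c h => ih _ _ (OA.fix h ⟨0, hn⟩)

/-- the first `m` columns as coordinates: the other columns are a variational set -/
theorem OA.cubes {m k n : ℕ} {R : Type} {c : Fin (m + k) → R → Fin n} (h : OA m (m + k) n R c) :
    ∃ C : Fin k → (Fin m → Fin n) → Fin n, IsVariationalSet m n k C := by
  have h0 := h (Fin.castAdd k) (Fin.castAdd_injective m k)
  let φ := Equiv.ofBijective _ h0
  have hφ : ∀ (x : Fin m → Fin n) (i : Fin m), c (Fin.castAdd k i) (φ.symm x) = x i := by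
    intro x i
    exact congrFun (φ.apply_symm_apply x) i
  refine ⟨fun i x => c (Fin.natAdd m i) (φ.symm x), fun i j x => ?_, fun e he => ?_⟩
  · -- the columns other than `j`, and the column of the cube
    have hinj : Injective (fun l : Fin m => if l = j then Fin.natAdd m i else Fin.castAdd k l) := by
      intro a b hab
      beta_reduce at hab
      have hne : ∀ l : Fin m, Fin.natAdd m i ≠ Fin.castAdd k l := by
        intro l hl
        have := congrArg Fin.val hl
        simp only [Fin.val_natAdd, Fin.val_castAdd] at this
        have := l.isLt
        omega
      by_cases ha : a = j <;> by_cases hb : b = j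
      · rw [ha, hb]
      · rw [if_pos ha, if_neg hb] at hab
        exact absurd hab (hne b)
      · rw [if_neg ha, if_pos hb] at hab
        exact absurd hab.symm (hne a)
      · rw [if_neg ha, if_neg hb] at hab
        exact Fin.castAdd_injective m k hab
    obtain ⟨h1, h2⟩ := h _ hinj
    constructor
    · intro s t hst
      beta_reduce at hst
      have h3 : φ.symm (update x j s) = φ.symm (update x j t) := by
        apply h1
        funext l
        beta_reduce
        by_cases hl : l = j
        · rw [if_pos hl]
          exact hst
        · rw [if_neg hl, hφ, hφ, update_of_ne hl, update_of_ne hl]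
      have h4 := congrFun (φ.symm.injective h3) j
      rwa [update_self, update_self] at h4
    · intro v
      obtain ⟨r, hr⟩ := h2 (update x j v)
      refine ⟨c (Fin.castAdd k j) r, ?_⟩
      have h3 : update x j (c (Fin.castAdd k j) r) = φ r := by
        funext l
        by_cases hl : l = j
        · subst hl
          rw [update_self]
          rfl
        · rw [update_of_ne hl]
          have := congrFun hr l
          beta_reduce at this
          rw [if_neg hl, update_of_ne hl] at this
          exact this.symm
      beta_reduce
      rw [h3, φ.symm_apply_apply]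
      have := congrFun hr j
      beta_reduce at this
      rwa [if_pos rfl, update_self] at this
  · have h1 := h (fun i => Fin.natAdd m (e i)) ((Fin.natAdd_injective k m).comp he)
    exact h1.comp φ.symm.bijective

/-- a variational set of `k ≥ m` cubes is an orthogonal array -/
theorem oa_of_var {m n k : ℕ} {C : Fin k → (Fin m → Fin n) → Fin n} (h : IsVariationalSet m n k C) :
    OA m k n (Fin m → Fin n) C := fun e he => h.2 e he

end Pool.Agent.Run7.h207.VS
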