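import Pool.Agent.Run7.h207.VS.OA

/-!
# An orthogonal array of strength two with `n` columns gives an affine plane of order `n`
-/

set_option autoImplicit false

namespace Pool.Agent.Run7.h207.VS

open Function Finset Pool.Agent.H430R2.PermCubes Pool.Agent.R116.AF

section
variable {k n : ℕ} {R : Type} {c : Fin k → R → Fin n}

theorem pair_injective {i j : Fin k} (hij : i ≠ j) : Injective (![i, j] : Fin 2 → Fin k) := by
  intro a b hab
  fin_cases a <;> fin_cases b
  · rfl
  · exact absurd hab hij
  · exact absurd hab.symm hij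
  · rfl

theorem OA.eq_of (h : OA 2 k n R c) {i j : Fin k} (hij : i ≠ j) {r s : R} (h1 : c i r = c i s) (h2 : c j r = c j s) :
    r = s := by
  apply (h ![i, j] (pair_injective hij)).1
  funext a
  fin_cases a
  · exact h1
  · exact h2

theorem OA.exists_of (h : OA 2 k n R c) {i j : Fin k} (hij : i ≠ j) (v w : Fin n) :
    ∃ r, c i r = v ∧ c j r = w := by
  obtain ⟨r, hr⟩ := (h ![i, j] (pair_injective hij)).2 ![v, w]
  exact ⟨r, congrFun hr 0, congrFun hr 1⟩

variable [Fintype R] [DecidableEq R]

theorem OA.card_R (h : OA 2 k n R c) {i j : Fin k} (hij : i ≠ j) : Fintype.card R = n ^ 2 := by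
  rw [Fintype.card_of_bijective (h ![i, j] (pair_injective hij)), Fintype.card_fun, Fintype.card_fin, Fintype.card_fin]

theorem OA.card_block (h : OA 2 k n R c) {i j : Fin k} (hij : i ≠ j) (v : Fin n) :
    (univ.filter (fun r => c i r = v)).card = n := by
  suffices h0 : (univ.filter (fun r => c i r = v)).card = (univ : Finset (Fin n)).card by
    rw [h0, card_univ, Fintype.card_fin]
  apply card_bij (fun r _ => c j r)
  · intro r _
    exact mem_univ _
  · intro r hr s hs hrs
    rw [mem_filter] at hr hs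
    exact h.eq_of hij (hr.2.trans hs.2.symm) hrs
  · intro w _
    obtain ⟨r, h1, h2⟩ := h.exists_of hij v w
    exact ⟨r, by rw [mem_filter]; exact ⟨mem_univ _, h1⟩, h2⟩

/-- rows that do not agree in any column, or are equal -/
def Par (c : Fin k → R → Fin n) (r s : R) : Prop := r = s ∨ ∀ i, c i r ≠ c i s

instance (c : Fin k → R → Fin n) (r s : R) : Decidable (Par c r s) := by
  unfold Par
  infer_instance

theorem Par.refl (r : R) : Par c r r := Or.inl rfl

theorem Par.symm {r s : R} (h : Par c r s) : Par c s r := by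
  rcases h with h | h
  · exact Or.inl h.symm
  · exact Or.inr fun i hi => h i hi.symm

end

section
variable {n : ℕ} {R : Type} {c : Fin n → R → Fin n} [Fintype R] [DecidableEq R]

theorem exists_ne_col (hn : 2 ≤ n) (i : Fin n) : ∃ j : Fin n, i ≠ j := by
  haveI : Nontrivial (Fin n) := Fin.nontrivial_iff_two_le.2 hn
  obtain ⟨j, hj⟩ := exists_ne i
  exact ⟨j, hj.symm⟩

theorem Par.trans (hn : 2 ≤ n) (h : OA 2 n n R c) {x y z : R} (h1 : Par c x y) (h2 : Par c y z) : Par c x z := by
  by_cases hxz : x = z
  · exact Or.inl hxz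
  rcases h1 with rfl | h1
  · exact h2
  rcases h2 with rfl | h2
  · exact Or.inr h1
  refine Or.inr fun i hi => ?_
  obtain ⟨j0, hj0⟩ := exists_ne_col hn i
  have hK := h.card_block hj0 (c i x)
  have hex : ∀ j : Fin n, ∃ s, c i s = c i x ∧ (i ≠ j → c j s = c j y) := by
    intro j
    by_cases hj : i = j
    · exact ⟨x, rfl, fun hh => absurd hj hh⟩
    · obtain ⟨s, hs1, hs2⟩ := h.exists_of hj (c i x) (c j y)
      exact ⟨s, hs1, fun _ => hs2⟩
  choose s hs1 hs2 using hex
  have himg : ((univ.erase i).image s).card = n - 1 := by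
    rw [card_image_of_injOn, card_erase_of_mem (mem_univ _), card_univ, Fintype.card_fin]
    intro a ha b hb hab
    by_contra hne
    have ha' : i ≠ a := fun hh => (mem_erase.1 (mem_coe.1 ha)).1 hh.symm
    have hb' : i ≠ b := fun hh => (mem_erase.1 (mem_coe.1 hb)).1 hh.symm
    have h3 : s a = y := by
      apply h.eq_of hne (hs2 a ha')
      rw [hab]
      exact hs2 b hb'
    exact h1 i (by rw [← h3, hs1 a])
  have hsub : insert x (insert z ((univ.erase i).image s)) ⊆ univ.filter (fun r => c i r = c i x) := by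
    intro r hr
    rw [mem_insert, mem_insert, mem_image] at hr
    rw [mem_filter]
    refine ⟨mem_univ _, ?_⟩
    rcases hr with rfl | rfl | ⟨j, -, rfl⟩
    · rfl
    · exact hi.symm
    · exact hs1 j
  have hz : z ∉ (univ.erase i).image s := by
    intro hz
    obtain ⟨j, hj, hj2⟩ := mem_image.1 hz
    have hj' : i ≠ j := fun hh => (mem_erase.1 hj).1 hh.symm
    exact h2 j (by rw [← hj2]; exact (hs2 j hj').symm)
  have hx : x ∉ insert z ((univ.erase i).image s) := by
    intro hx
    rcases mem_insert.1 hx with hx | hx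
    · exact hxz hx
    · obtain ⟨j, hj, hj2⟩ := mem_image.1 hx
      have hj' : i ≠ j := fun hh => (mem_erase.1 hj).1 hh.symm
      exact h1 j (by rw [← hj2]; exact hs2 j hj')
  have := card_le_card hsub
  rw [hK, card_insert_of_notMem hx, card_insert_of_notMem hz, himg] at this
  omega

theorem card_class (hn : 2 ≤ n) (h : OA 2 n n R c) (r : R) : (univ.filter (fun s => Par c r s)).card = n := by
  have h1 : ((univ : Finset (Fin n)).biUnion fun i => (univ.filter (fun s => c i s = c i r)).erase r).card = n * (n - 1) := by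
    rw [card_biUnion]
    · rw [sum_congr rfl (fun i _ => show _ = n - 1 from ?_), sum_const, card_univ, Fintype.card_fin, smul_eq_mul]
      obtain ⟨j, hj⟩ := exists_ne_col hn i
      rw [card_erase_of_mem (by rw [mem_filter]; exact ⟨mem_univ _, rfl⟩), h.card_block hj]
    · intro i _ j _ hij
      rw [Function.onFun, disjoint_left]
      intro s hs hs'
      rw [mem_erase, mem_filter] at hs hs'
      exact hs.1 (h.eq_of hij hs.2.2 hs'.2.2)
  have h2 : univ.filter (fun s => Par c r s) =
      ((univ : Finset (Fin n)).biUnion fun i => (univ.filter (fun s => c i s = c i r)).erase r)ᶜ := by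
    ext s
    rw [mem_compl, mem_biUnion, mem_filter]
    constructor
    · rintro ⟨-, hs⟩ ⟨i, -, hi⟩
      rw [mem_erase, mem_filter] at hi
      rcases hs with hs | hs
      · exact hi.1 hs.symm
      · exact hs i hi.2.2.symm
    · intro hs
      refine ⟨mem_univ _, ?_⟩
      by_cases hrs : r = s
      · exact Or.inl hrs
      · refine Or.inr fun i hi => hs ⟨i, mem_univ _, ?_⟩
        rw [mem_erase, mem_filter]
        exact ⟨fun hh => hrs hh.symm, mem_univ _, hi.symm⟩
  obtain ⟨j, hj⟩ := exists_ne_col hn ⟨0, by omega⟩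
  rw [h2, card_compl, h1, h.card_R hj]
  have h3 : n ^ 2 = n * (n - 1) + n := by
    obtain ⟨l, rfl⟩ : ∃ l, n = l + 1 := ⟨n - 1, by omega⟩
    rw [Nat.add_sub_cancel]
    ring
  omega

/-- an orthogonal array of strength two with `n` columns gives an affine plane of order `n` -/
theorem exists_aff (hn : 2 ≤ n) (h : OA 2 n n R c) : ∃ B : Finset (Finset R), Aff n B := by
  obtain ⟨j0, hj0⟩ := exists_ne_col hn ⟨0, by omega⟩
  refine ⟨(univ : Finset (Fin n × Fin n)).image (fun p => univ.filter (fun r => c p.1 r = p.2)) ∪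
    (univ : Finset R).image (fun r => univ.filter (fun s => Par c r s)), hn, h.card_R hj0, ?_, ?_, ?_⟩
  · intro b hb
    rw [mem_union, mem_image, mem_image] at hb
    rcases hb with ⟨p, -, rfl⟩ | ⟨r, -, rfl⟩
    · obtain ⟨j, hj⟩ := exists_ne_col hn p.1
      exact h.card_block hj p.2
    · exact card_class hn h r
  · intro x y hxy
    by_cases hp : ∃ i, c i x = c i y
    · obtain ⟨i, hi⟩ := hp
      refine ⟨univ.filter (fun r => c i r = c i x), mem_union_left _ (mem_image.2 ⟨(i, c i x), mem_univ _, rfl⟩), ?_, ?_⟩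
      · rw [mem_filter]
        exact ⟨mem_univ _, rfl⟩
      · rw [mem_filter]
        exact ⟨mem_univ _, hi.symm⟩
    · refine ⟨univ.filter (fun s => Par c x s), mem_union_right _ (mem_image.2 ⟨x, mem_univ _, rfl⟩), ?_, ?_⟩
      · rw [mem_filter]
        exact ⟨mem_univ _, Par.refl x⟩
      · rw [mem_filter]
        exact ⟨mem_univ _, Or.inr fun i hi => hp ⟨i, hi⟩⟩
  · intro x y hxy
    have key : ∀ b ∈ (univ : Finset (Fin n × Fin n)).image (fun p => univ.filter (fun r => c p.1 r = p.2)) ∪
        (univ : Finset R).image (fun r => univ.filter (fun s => Par c r s)), x ∈ b → y ∈ b →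
        (∃ i, c i x = c i y ∧ b = univ.filter (fun r => c i r = c i x)) ∨
        (Par c x y ∧ b = univ.filter (fun s => Par c x s)) := by
      intro b hb hxb hyb
      rw [mem_union, mem_image, mem_image] at hb
      rcases hb with ⟨p, -, rfl⟩ | ⟨r, -, rfl⟩
      · rw [mem_filter] at hxb hyb
        refine Or.inl ⟨p.1, hxb.2.trans hyb.2.symm, ?_⟩
        rw [hxb.2]
      · rw [mem_filter] at hxb hyb
        refine Or.inr ⟨Par.trans hn h hxb.2.symm hyb.2, ?_⟩
        ext s
        rw [mem_filter, mem_filter]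
        constructor
        · rintro ⟨-, hs⟩
          exact ⟨mem_univ _, Par.trans hn h hxb.2.symm hs⟩
        · rintro ⟨-, hs⟩
          exact ⟨mem_univ _, Par.trans hn h hxb.2 hs⟩
    intro b hb b' hb' h1 h2 h3 h4
    rcases key b hb h1 h2 with ⟨i, hi, hbi⟩ | ⟨hp, hbi⟩ <;> rcases key b' hb' h3 h4 with ⟨j, hj, hbj⟩ | ⟨hp', hbj⟩
    · by_cases hij : i = j
      · subst hij
        rw [hbi, hbj]
      · exact absurd (h.eq_of hij hi hj) hxy
    · rcases hp' with hp' | hp'
      · exact absurd hp' hxy
      · exact absurd hi (hp' i)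
    · rcases hp with hp | hp
      · exact absurd hp hxy
      · exact absurd hj (hp j)
    · rw [hbi, hbj]

end

/-- the Bruck-Ryser condition for orthogonal arrays of strength two with `n` columns -/
theorem OA.bruck_ryser {n : ℕ} {R : Type} {c : Fin n → R → Fin n} (h : OA 2 n n R c)
    (h4 : n % 4 = 1 ∨ n % 4 = 2) {p : ℕ} (hp : p.Prime) (h1 : p ∣ n) (h2 : ¬ p ^ 2 ∣ n) : p % 4 ≠ 3 := by
  classical
  have hn : 2 ≤ n := by
    rcases h4 with h4 | h4
    · have := Nat.le_of_dvd (by omega) h1
      have := hp.two_le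
      omega
    · omega
  obtain ⟨j, hj⟩ := exists_ne_col hn ⟨0, by omega⟩
  haveI : Finite R := Finite.of_injective _ (h ![⟨0, by omega⟩, j] (pair_injective hj)).1
  haveI : Fintype R := Fintype.ofFinite R
  obtain ⟨B, hB⟩ := exists_aff hn h
  exact hB.br h4 hp h1 h2

end Pool.Agent.Run7.h207.VS
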