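import Pool.Agent.Run7.h207.VS.Plane
import Pool.Agent.Run7.h207.VS.Clique

/-!
# An orthogonal array of strength two with `n - 1` columns gives an affine plane of order `n`
-/

set_option autoImplicit false
set_option linter.unusedSectionVars false
set_option linter.style.haveILetI false

namespace Pool.Agent.Run7.h207.VS

open Function Finset Pool.Agent.H430R2.PermCubes Pool.Agent.R116.AF

section
variable {k n : ℕ} {R : Type} {c : Fin k → R → Fin n} [Fintype R] [DecidableEq R]

/-- the rows that do not agree with `x` in any column -/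
def Nb (c : Fin k → R → Fin n) (x : R) : Finset R := univ.filter fun z => ∀ i, c i x ≠ c i z

theorem mem_Nb {x z : R} : z ∈ Nb c x ↔ ∀ i, c i x ≠ c i z := by
  rw [Nb, mem_filter]
  exact ⟨fun h => h.2, fun h => ⟨mem_univ _, h⟩⟩

theorem exists_ne_fin (hk : 2 ≤ k) (i : Fin k) : ∃ j : Fin k, i ≠ j := by
  haveI : Nontrivial (Fin k) := Fin.nontrivial_iff_two_le.2 hk
  obtain ⟨j, hj⟩ := exists_ne i
  exact ⟨j, hj.symm⟩

theorem OA.nb_block (h : OA 2 k n R c) (hk : 2 ≤ k) (hkn : k + 1 = n) {x : R} {i : Fin k} {v : Fin n} (hv : c i x ≠ v) :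
    ((Nb c x).filter fun z => c i z = v).card = 2 := by
  obtain ⟨j0, hj0⟩ := exists_ne_fin hk i
  have hK := h.card_block hj0 v
  have hex : ∀ j : Fin k, ∃ s, c i s = v ∧ (i ≠ j → c j s = c j x) := by
    intro j
    by_cases hj : i = j
    · obtain ⟨s, hs1, -⟩ := h.exists_of hj0 v v
      exact ⟨s, hs1, fun hh => absurd hj hh⟩
    · obtain ⟨s, hs1, hs2⟩ := h.exists_of hj v (c j x)
      exact ⟨s, hs1, fun _ => hs2⟩
  choose s hs1 hs2 using hex
  have himg : ((univ.erase i).image s).card = k - 1 := by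
    rw [card_image_of_injOn, card_erase_of_mem (mem_univ _), card_univ, Fintype.card_fin]
    intro a ha b hb hab
    by_contra hne
    have ha' : i ≠ a := fun hh => (mem_erase.1 (mem_coe.1 ha)).1 hh.symm
    have hb' : i ≠ b := fun hh => (mem_erase.1 (mem_coe.1 hb)).1 hh.symm
    have h3 : s a = x := by
      apply h.eq_of hne (hs2 a ha')
      rw [hab]
      exact hs2 b hb'
    exact hv (by rw [← h3, hs1 a])
  have hsub : (univ.erase i).image s ⊆ univ.filter (fun r => c i r = v) := by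
    intro r hr
    obtain ⟨j, -, rfl⟩ := mem_image.1 hr
    exact mem_filter.2 ⟨mem_univ _, hs1 j⟩
  have heq : (Nb c x).filter (fun z => c i z = v) = univ.filter (fun r => c i r = v) \ (univ.erase i).image s := by
    ext z
    rw [mem_filter, mem_Nb, mem_sdiff, mem_filter, mem_image]
    constructor
    · rintro ⟨h1, h2⟩
      refine ⟨⟨mem_univ _, h2⟩, ?_⟩
      rintro ⟨j, hj, rfl⟩
      have hj' : i ≠ j := fun hh => (mem_erase.1 hj).1 hh.symm
      exact h1 j (hs2 j hj').symm
    · rintro ⟨⟨-, h2⟩, h3⟩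
      refine ⟨fun j hj => ?_, h2⟩
      by_cases hij : i = j
      · subst hij
        exact hv (hj.trans h2)
      · refine h3 ⟨j, mem_erase.2 ⟨fun hh => hij hh.symm, mem_univ _⟩, ?_⟩
        exact h.eq_of hij ((hs1 j).trans h2.symm) ((hs2 j hij).trans hj)
  rw [heq, card_sdiff_of_subset hsub, hK, himg]
  omega

theorem nb_block_self {x : R} {i : Fin k} : ((Nb c x).filter fun z => c i z = c i x) = ∅ := by
  rw [filter_eq_empty_iff]
  intro z hz hz'
  exact mem_Nb.1 hz i hz'.symm

theorem OA.card_nb (h : OA 2 k n R c) (hk : 2 ≤ k) (hkn : k + 1 = n) (x : R) : (Nb c x).card = 2 * n - 2 := by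
  let i : Fin k := ⟨0, by omega⟩
  rw [card_eq_sum_card_fiberwise (f := c i) (t := univ) (fun z _ => mem_coe.2 (mem_univ _))]
  have h1 : ∀ v ∈ (univ : Finset (Fin n)).erase (c i x), ((Nb c x).filter fun z => c i z = v).card = 2 := by
    intro v hv
    exact h.nb_block hk hkn fun hh => (mem_erase.1 hv).1 hh.symm
  rw [← add_sum_erase _ _ (mem_univ (c i x)), nb_block_self, card_empty, sum_congr rfl h1, sum_const,
    card_erase_of_mem (mem_univ _), card_univ, Fintype.card_fin, smul_eq_mul]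
  omega

/-- the rows near `x` that agree with `y` in some column, without `y` -/
def Ag (c : Fin k → R → Fin n) (x y : R) : Finset R :=
  (univ : Finset (Fin k)).biUnion fun i => ((Nb c x).filter fun z => c i z = c i y).erase y

theorem OA.card_Ag (h : OA 2 k n R c) (x y : R) :
    (Ag c x y).card = ∑ i, (((Nb c x).filter fun z => c i z = c i y).erase y).card := by
  rw [Ag, card_biUnion]
  intro i _ j _ hij
  rw [Function.onFun, disjoint_left]
  intro s hs hs'
  rw [mem_erase, mem_filter] at hs hs'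
  exact hs.1 (h.eq_of hij hs.2.2 hs'.2.2)

theorem nb_inter (hk : 2 ≤ k) (x y : R) : Nb c x ∩ Nb c y = Nb c x \ insert y (Ag c x y) := by
  ext z
  rw [mem_inter, mem_sdiff, mem_insert, not_or]
  constructor
  · rintro ⟨h1, h2⟩
    refine ⟨h1, ?_, ?_⟩
    · rintro rfl
      exact mem_Nb.1 h2 ⟨0, by omega⟩ rfl
    · intro h3
      obtain ⟨i, -, hi⟩ := mem_biUnion.1 h3
      exact mem_Nb.1 h2 i (mem_filter.1 (mem_erase.1 hi).2).2.symm
  · rintro ⟨h1, h2, h3⟩
    refine ⟨h1, mem_Nb.2 fun i hi => h3 ?_⟩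
    exact mem_biUnion.2 ⟨i, mem_univ _, mem_erase.2 ⟨h2, mem_filter.2 ⟨h1, hi.symm⟩⟩⟩

theorem Ag_subset (x y : R) : Ag c x y ⊆ Nb c x := by
  intro z hz
  obtain ⟨i, -, hi⟩ := mem_biUnion.1 hz
  exact (mem_filter.1 (mem_erase.1 hi).2).1

theorem not_mem_Ag (x y : R) : y ∉ Ag c x y := by
  intro hz
  obtain ⟨i, -, hi⟩ := mem_biUnion.1 hz
  exact (mem_erase.1 hi).1 rfl

/-- the graph of the rows that do not agree has the parameters of the square lattice graph -/
theorem OA.lat (h : OA 2 k n R c) (hk : 2 ≤ k) (hkn : k + 1 = n) : Lat (Nb c) n where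
  symm a b hab := mem_Nb.2 fun i hi => mem_Nb.1 hab i hi.symm
  irr a ha := mem_Nb.1 ha ⟨0, by omega⟩ rfl
  deg a := h.card_nb hk hkn a
  lam a b hab := by
    have hba : b ∈ Nb c a := mem_Nb.2 fun i hi => mem_Nb.1 hab i hi.symm
    have h1 : ∀ i ∈ (univ : Finset (Fin k)), (((Nb c a).filter fun z => c i z = c i b).erase b).card = 1 := by
      intro i _
      have hm : b ∈ (Nb c a).filter fun z => c i z = c i b := mem_filter.2 ⟨hba, rfl⟩
      rw [card_erase_of_mem hm, h.nb_block hk hkn (mem_Nb.1 hba i)]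
    have h2 : (Ag c a b).card = k := by
      rw [h.card_Ag, sum_congr rfl h1, sum_const, card_univ, Fintype.card_fin, smul_eq_mul, mul_one]
    have h3 : insert b (Ag c a b) ⊆ Nb c a := insert_subset hba (Ag_subset a b)
    rw [nb_inter hk, card_sdiff_of_subset h3, card_insert_of_notMem (not_mem_Ag a b), h2, h.card_nb hk hkn]
    omega
  mu a b hab hnb := by
    have hba : b ∉ Nb c a := fun hh => hnb (mem_Nb.2 fun i hi => mem_Nb.1 hh i hi.symm)
    obtain ⟨i0, hi0⟩ : ∃ i, c i a = c i b := by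
      by_contra hcon
      exact hba (mem_Nb.2 fun i hi => hcon ⟨i, hi⟩)
    have h1 : ∀ i ∈ (univ : Finset (Fin k)).erase i0,
        (((Nb c a).filter fun z => c i z = c i b).erase b).card = 2 := by
      intro i hi
      have h4 : c i a ≠ c i b := fun hh => hab (h.eq_of (mem_erase.1 hi).1 hh hi0)
      rw [erase_eq_of_notMem (fun hh => hba (mem_filter.1 hh).1), h.nb_block hk hkn h4]
    have h2 : (Ag c a b).card = (k - 1) * 2 := by
      rw [h.card_Ag, ← add_sum_erase _ _ (mem_univ i0), sum_congr rfl h1, sum_const,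
        card_erase_of_mem (mem_univ _), card_univ, Fintype.card_fin, smul_eq_mul, ← hi0, nb_block_self,
        erase_empty, card_empty, zero_add]
    have h3 : Nb c a ∩ Nb c b ⊆ Nb c a \ Ag c a b := by
      rw [nb_inter hk]
      exact sdiff_subset_sdiff (Subset.refl _) (subset_insert _ _)
    have h4 := card_le_card h3
    rw [card_sdiff_of_subset (Ag_subset a b), h2, h.card_nb hk hkn] at h4
    omega

/-- an orthogonal array of strength two with `n - 1` columns gives an affine plane of order `n` -/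
theorem exists_aff_two (hn : 8 ≤ n) (hkn : k + 1 = n) (h : OA 2 k n R c) : ∃ B : Finset (Finset R), Aff n B := by
  have hk : 2 ≤ k := by omega
  have hL := h.lat hk hkn
  have hcard : ∀ x y, x ∈ Nb c y → (insert x (insert y (Nb c x ∩ Nb c y))).card = n := by
    intro x y hxy
    have h1 : y ∉ Nb c x ∩ Nb c y := fun hh => hL.irr _ (mem_inter.1 hh).2
    have h2 : x ∉ insert y (Nb c x ∩ Nb c y) := by
      intro hh
      rcases mem_insert.1 hh with rfl | hh
      · exact hL.irr _ hxy
      · exact hL.irr _ (mem_inter.1 hh).1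
    rw [card_insert_of_notMem h2, card_insert_of_notMem h1, hL.lam x y hxy]
    omega
  have hclq : ∀ x y, x ∈ Nb c y → ∀ a ∈ insert x (insert y (Nb c x ∩ Nb c y)),
      ∀ b ∈ insert x (insert y (Nb c x ∩ Nb c y)), a ≠ b → a ∈ Nb c b := by
    intro x y hxy a ha b hb hab
    have hyx := hL.symm _ _ hxy
    rw [mem_insert, mem_insert, mem_inter] at ha hb
    rcases ha with rfl | rfl | ha <;> rcases hb with rfl | rfl | hb
    · exact absurd rfl hab
    · exact hxy
    · exact hL.symm _ _ hb.1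
    · exact hyx
    · exact absurd rfl hab
    · exact hL.symm _ _ hb.2
    · exact ha.1
    · exact ha.2
    · exact hL.clique hn hyx ha.1 hb.1 ha.2 hb.2 hab
  have hKeq : ∀ x y, x ∈ Nb c y → ∀ a ∈ insert x (insert y (Nb c x ∩ Nb c y)),
      ∀ b ∈ insert x (insert y (Nb c x ∩ Nb c y)), a ≠ b →
      insert x (insert y (Nb c x ∩ Nb c y)) = insert a (insert b (Nb c a ∩ Nb c b)) := by
    intro x y hxy a ha b hb hab
    apply eq_of_subset_of_card_le
    · intro z hz
      rw [mem_insert, mem_insert, mem_inter]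
      by_cases h1 : z = a
      · exact Or.inl h1
      by_cases h2 : z = b
      · exact Or.inr (Or.inl h2)
      exact Or.inr (Or.inr ⟨hclq x y hxy z hz a ha h1, hclq x y hxy z hz b hb h2⟩)
    · rw [hcard x y hxy, hcard a b (hclq x y hxy a ha b hb hab)]
  obtain ⟨j0, hj0⟩ := exists_ne_fin hk ⟨0, by omega⟩
  refine ⟨(univ : Finset (Fin k × Fin n)).image (fun p => univ.filter (fun r => c p.1 r = p.2)) ∪
    ((univ : Finset (R × R)).filter (fun q => q.1 ∈ Nb c q.2)).image
      (fun q => insert q.1 (insert q.2 (Nb c q.1 ∩ Nb c q.2))), by omega, h.card_R hj0, ?_, ?_, ?_⟩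
  · intro b hb
    rw [mem_union, mem_image, mem_image] at hb
    rcases hb with ⟨p, -, rfl⟩ | ⟨q, hq, rfl⟩
    · obtain ⟨j, hj⟩ := exists_ne_fin hk p.1
      exact h.card_block hj p.2
    · exact hcard _ _ (mem_filter.1 hq).2
  · intro x y hxy
    by_cases hp : ∃ i, c i x = c i y
    · obtain ⟨i, hi⟩ := hp
      refine ⟨univ.filter (fun r => c i r = c i x), mem_union_left _ (mem_image.2 ⟨(i, c i x), mem_univ _, rfl⟩), ?_, ?_⟩
      · rw [mem_filter]
        exact ⟨mem_univ _, rfl⟩
      · rw [mem_filter]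
        exact ⟨mem_univ _, hi.symm⟩
    · have hyx : y ∈ Nb c x := mem_Nb.2 fun i hi => hp ⟨i, hi⟩
      refine ⟨insert x (insert y (Nb c x ∩ Nb c y)), mem_union_right _ (mem_image.2
        ⟨(x, y), mem_filter.2 ⟨mem_univ _, hL.symm _ _ hyx⟩, rfl⟩), mem_insert_self _ _, ?_⟩
      exact mem_insert_of_mem (mem_insert_self _ _)
  · intro x y hxy
    have key : ∀ b ∈ (univ : Finset (Fin k × Fin n)).image (fun p => univ.filter (fun r => c p.1 r = p.2)) ∪
        ((univ : Finset (R × R)).filter (fun q => q.1 ∈ Nb c q.2)).image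
          (fun q => insert q.1 (insert q.2 (Nb c q.1 ∩ Nb c q.2))), x ∈ b → y ∈ b →
        (∃ i, c i x = c i y ∧ b = univ.filter (fun r => c i r = c i x)) ∨
        (x ∈ Nb c y ∧ b = insert x (insert y (Nb c x ∩ Nb c y))) := by
      intro b hb hxb hyb
      rw [mem_union, mem_image, mem_image] at hb
      rcases hb with ⟨p, -, rfl⟩ | ⟨q, hq, rfl⟩
      · rw [mem_filter] at hxb hyb
        refine Or.inl ⟨p.1, hxb.2.trans hyb.2.symm, ?_⟩
        rw [hxb.2]
      · have hq' := (mem_filter.1 hq).2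
        exact Or.inr ⟨hclq _ _ hq' x hxb y hyb hxy, hKeq _ _ hq' x hxb y hyb hxy⟩
    intro b hb b' hb' h1 h2 h3 h4
    rcases key b hb h1 h2 with ⟨i, hi, hbi⟩ | ⟨hp, hbi⟩ <;> rcases key b' hb' h3 h4 with ⟨j, hj, hbj⟩ | ⟨hp', hbj⟩
    · by_cases hij : i = j
      · subst hij
        rw [hbi, hbj]
      · exact absurd (h.eq_of hij hi hj) hxy
    · exact absurd hi.symm (mem_Nb.1 hp' i)
    · exact absurd hj.symm (mem_Nb.1 hp j)
    · rw [hbi, hbj]

end

/-- the Bruck-Ryser condition for orthogonal arrays of strength two with `n - 1` columns -/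
theorem OA.bruck_ryser_two {n k : ℕ} {R : Type} {c : Fin k → R → Fin n} (h : OA 2 k n R c) (hkn : k + 1 = n)
    (hn : 8 ≤ n) (h4 : n % 4 = 1 ∨ n % 4 = 2) {p : ℕ} (hp : p.Prime) (h1 : p ∣ n) (h2 : ¬ p ^ 2 ∣ n) :
    p % 4 ≠ 3 := by
  classical
  obtain ⟨j, hj⟩ := exists_ne_fin (k := k) (by omega) ⟨0, by omega⟩
  haveI : Finite R := Finite.of_injective _ (h ![⟨0, by omega⟩, j] (pair_injective hj)).1
  haveI : Fintype R := Fintype.ofFinite R
  obtain ⟨B, hB⟩ := exists_aff_two hn hkn h
  exact hB.br h4 hp h1 h2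

end Pool.Agent.Run7.h207.VS
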